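import Mathlib

open Filter Topology Set
open scoped ENNReal ZeroAtInfty

namespace Pool.Agent.Results.MP_b30f08_an.NuclearErgodic

section defs
variable {𝕜 F : Type} [RCLike 𝕜] [TopologicalSpace F]

/-- the coechelon space: the union of the weighted spaces `{(z_j / v m j)_j : z ∈ F}` -/
noncomputable def K (co : F → ℕ → 𝕜) (v : ℕ → ℕ → ℝ) : Submodule 𝕜 (ℕ → 𝕜) :=
  Submodule.span 𝕜 {x | ∃ m z, x = fun j => co z j / v m j}

/-- the inclusion of the `m`-th weighted space, identified isometrically with `F` -/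
noncomputable def inc (co : F → ℕ → 𝕜) (v : ℕ → ℕ → ℝ) (m : ℕ) (z : F) : K co v :=
  ⟨fun j => co z j / v m j, Submodule.subset_span ⟨m, z, rfl⟩⟩

/-- `t` is a locally convex vector topology -/
def IsLC (𝕜 E : Type) [RCLike 𝕜] [AddCommGroup E] [Module 𝕜 E] (t : TopologicalSpace E) : Prop :=
  @IsTopologicalAddGroup E t _ ∧ @ContinuousSMul 𝕜 E _ _ t ∧
    @LocallyConvexSpace ℝ E _ _ _ (Module.compHom E (algebraMap ℝ 𝕜)) t

/-- the finest locally convex vector topology making all `ι m` continuous -/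
@[reducible] def lim (𝕜 : Type) {E : Type} [RCLike 𝕜] [AddCommGroup E] [Module 𝕜 E]
    (ι : ℕ → F → E) : TopologicalSpace E :=
  sInf {t | IsLC 𝕜 E t ∧ ∀ m, Continuous[_, t] (ι m)}

/-- every continuous linear map from `E` to a Banach space is nuclear -/
def Nuclear (𝕜 E : Type) [RCLike 𝕜] [AddCommGroup E] [Module 𝕜 E] [TopologicalSpace E] : Prop :=
  ∀ (G : Type) [NormedAddCommGroup G] [NormedSpace 𝕜 G] [CompleteSpace G] (T : E →L[𝕜] G),
    ∃ (f : ℕ → E →L[𝕜] 𝕜) (y : ℕ → G), Summable (fun i => ‖y i‖) ∧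
      (∃ U ∈ 𝓝 (0 : E), ∀ i, ∀ x ∈ U, ‖f i x‖ ≤ 1) ∧ ∀ x, HasSum (fun i => f i x • y i) (T x)

/-- topological ergodicity -/
def Ergodic {E : Type} [TopologicalSpace E] (B : E → E) : Prop :=
  ∀ U W : Set E, IsOpen U → IsOpen W → U.Nonempty → W.Nonempty →
    ∃ q, ∀ n, 1 ≤ n → ∃ k, n ≤ k ∧ k ≤ n + q ∧ ∃ x ∈ U, B^[k] x ∈ W

/-- sequential hypercyclicity -/
def SeqHyp {E : Type} [TopologicalSpace E] (B : E → E) : Prop :=
  ∃ x, ∀ z, ∃ n : ℕ → ℕ, Tendsto (fun i => B^[n i] x) atTop (𝓝 z)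

/-- if `(E, t)` is nuclear and the backward shift is ergodic, it is sequentially hypercyclic -/
def Claim (𝕜 : Type) {E : Type} [RCLike 𝕜] [AddCommGroup E] [Module 𝕜 E] (t : TopologicalSpace E)
    (val : E → ℕ → 𝕜) : Prop :=
  ∀ B : E → E, (∀ x j, val (B x) j = val x (j + 1)) → Nuclear 𝕜 E → Ergodic B → SeqHyp B

/-- the claim for every coechelon space modelled on `F` -/
def Main (co : F → ℕ → 𝕜) : Prop :=
  ∀ v : ℕ → ℕ → ℝ, (∀ m j, 0 < v m j) → (∀ m j, v (m + 1) j ≤ v m j) →
    (∀ m, ∃ n ≥ m, ∃ C > 0, ∀ j, v n j ≤ C * v m (j + 1)) →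
    Claim 𝕜 (lim 𝕜 (inc co v)) Subtype.val

end defs

variable {𝕜 F : Type} [RCLike 𝕜] [NormedAddCommGroup F] [NormedSpace 𝕜 F]

noncomputable def incL (co : F →ₗ[𝕜] ℕ → 𝕜) (v : ℕ → ℕ → ℝ) (m : ℕ) : F →ₗ[𝕜] K co v where
  toFun := inc co v m
  map_add' x y := Subtype.ext (by ext j; simp [inc, add_div])
  map_smul' c x := Subtype.ext (by ext j; simp [inc, mul_div_assoc])

noncomputable def coL (𝕜 : Type) [RCLike 𝕜] (p : ℝ≥0∞) : lp (fun _ : ℕ => 𝕜) p →ₗ[𝕜] ℕ → 𝕜 where
  toFun x n := x n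
  map_add' _ _ := rfl
  map_smul' _ _ := rfl

noncomputable def coC (𝕜 : Type) [RCLike 𝕜] : C₀(ℕ, 𝕜) →ₗ[𝕜] ℕ → 𝕜 where
  toFun x n := x n
  map_add' _ _ := rfl
  map_smul' _ _ := rfl

variable {co : F →ₗ[𝕜] ℕ → 𝕜} {v : ℕ → ℕ → ℝ}

lemma inc_apply (m : ℕ) (z : F) (j : ℕ) : (incL co v m z).1 j = co z j / v m j := rfl

lemma cont_inc (m : ℕ) : Continuous[_, lim 𝕜 (inc co v)] (incL co v m) :=
  continuous_sInf_rng.2 fun _ h => h.2 m

lemma contK {G : Type} [NormedAddCommGroup G] [NormedSpace 𝕜 G] (D : K co v →ₗ[𝕜] G)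
    (h : ∀ m, ∃ C, ∀ z, ‖D (incL co v m z)‖ ≤ C * ‖z‖) : Continuous[lim 𝕜 (inc co v), _] D := by
  let _ := NormedSpace.restrictScalars ℝ 𝕜 G
  let _ : Module ℝ (K co v) := Module.compHom _ (algebraMap ℝ 𝕜)
  refine continuous_iff_le_induced.2 (sInf_le ⟨⟨topologicalAddGroup_induced D,
    continuousSMul_induced D, LocallyConvexSpace.induced (𝕜 := ℝ) (E := K co v) (F := G)
      ⟨⟨D, D.map_add⟩, fun r x => D.map_smul (algebraMap ℝ 𝕜 r) x⟩⟩, fun m => ?_⟩)
  obtain ⟨C, hC⟩ := h m
  exact continuous_induced_rng.2 (AddMonoidHomClass.continuous_of_bound (D ∘ₗ incL co v m) C hC)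

theorem general [CompleteSpace F] (inj : Function.Injective co) (le_norm : ∀ x n, ‖co x n‖ ≤ ‖x‖)
    (dom : ∀ x (y : ℕ → 𝕜) (C : ℝ), 0 ≤ C → (∀ n, ‖y n‖ ≤ C * ‖co x n‖) → ∃ z, co z = y ∧ ‖z‖ ≤ C * ‖x‖)
    (dense : Dense {x | ∃ N, ∀ n, N ≤ n → co x n = 0})
    (he : ∀ i : ℕ, ∃ z, co z = Pi.single i 1 ∧ ‖z‖ ≤ 1) : Main co := by
  intro v pos dec hv B hB nuc erg
  let _ := lim 𝕜 (inc co v)
  choose e he he1 using he
  have anti : ∀ {m n} j, m ≤ n → v n j ≤ v m j := fun j h =>
    antitone_nat_of_succ_le (f := fun m => v m j) (fun m => dec m j) h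
  have ne : ∀ m j, (v m j : 𝕜) ≠ 0 := fun m j => by exact_mod_cast (pos m j).ne'
  have nv : ∀ m j, ‖(v m j : 𝕜)‖ = v m j := fun m j => by
    rw [RCLike.norm_ofReal, abs_of_pos (pos m j)]
  have trans : ∀ {m n}, m ≤ n → ∀ z, ∃ z', incL co v n z' = incL co v m z ∧ ‖z'‖ ≤ ‖z‖ := by
    intro m n h z
    obtain ⟨z', h1, h2⟩ := dom z (fun j => co z j / v m j * v n j) 1 zero_le_one fun j => by
      rw [norm_mul, norm_div, nv, nv, one_mul, div_mul_eq_mul_div, div_le_iff₀ (pos m j)]
      exact mul_le_mul_of_nonneg_left (anti j h) (norm_nonneg _)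
    refine ⟨z', Subtype.ext (funext fun j => ?_), by simpa using h2⟩
    rw [inc_apply, inc_apply, h1, mul_div_cancel_right₀ _ (ne n j)]
  have surj : ∀ x : K co v, ∃ m z, incL co v m z = x := by
    rintro ⟨x, hx⟩
    induction hx using Submodule.span_induction with
    | mem x h => obtain ⟨m, z, rfl⟩ := h; exact ⟨m, z, rfl⟩
    | zero => exact ⟨0, 0, map_zero _⟩
    | add x y _ _ h1 h2 =>
      obtain ⟨m, z, h1⟩ := h1
      obtain ⟨n, w, h2⟩ := h2
      obtain ⟨z', a1, -⟩ := trans (le_max_left m n) z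
      obtain ⟨w', a2, -⟩ := trans (le_max_right m n) w
      exact ⟨_, z' + w', by rw [map_add, a1, a2, h1, h2]; rfl⟩
    | smul c x _ h =>
      obtain ⟨m, z, h⟩ := h
      exact ⟨m, c • z, by rw [map_smul, h]; rfl⟩
  have Bp : ∀ k x j, (B^[k] x).1 j = x.1 (j + k) := by
    intro k
    induction k with
    | zero => intro x j; rfl
    | succ k ih => intro x j; rw [Function.iterate_succ_apply, ih, hB, add_assoc]
  have fin : ∀ (N : ℕ) (a : ℕ → 𝕜) (s : ℕ) (n : ℕ), co (∑ i ∈ Finset.range N, a i • e (i + s)) n =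
      if s ≤ n ∧ n - s < N then a (n - s) else 0 := by
    intro N a s n
    simp only [map_sum, map_smul, he, Finset.sum_apply, Pi.smul_apply, Pi.single_apply,
      smul_eq_mul, mul_ite, mul_one, mul_zero]
    split_ifs with h
    · rw [Finset.sum_eq_single (n - s) (fun b _ hb => if_neg (by omega)) (by simp [h.2]),
        if_pos (by omega)]
    · exact Finset.sum_eq_zero fun b hb => if_neg (by have := Finset.mem_range.1 hb; omega)
  have diag : ∀ d : ℕ → ℝ, (∀ j, 0 ≤ d j) → (∀ m, ∃ A, ∀ j, A ≤ j → d j ≤ v m j) →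
      ∃ D : K co v →L[𝕜] F, ∀ x j, co (D x) j = d j * x.1 j := by
    intro d d0 hd
    have h1 : ∀ m, ∃ C, ∀ z, ∃ w, co w = (fun j => d j * (incL co v m z).1 j) ∧ ‖w‖ ≤ C * ‖z‖ := by
      intro m
      obtain ⟨A, hA⟩ := hd m
      have s0 : 0 ≤ ∑ j ∈ Finset.range A, d j / v m j :=
        Finset.sum_nonneg fun j _ => div_nonneg (d0 j) (pos m j).le
      refine ⟨1 + ∑ j ∈ Finset.range A, d j / v m j, fun z => dom z _ _ (by linarith) fun j => ?_⟩
      rw [inc_apply, mul_div_left_comm, mul_comm, norm_mul, norm_div, nv, RCLike.norm_ofReal,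
        abs_of_nonneg (d0 j)]
      refine mul_le_mul_of_nonneg_right ?_ (norm_nonneg _)
      rcases lt_or_ge j A with h | h
      · have := Finset.single_le_sum (f := fun j => d j / v m j)
          (fun j _ => div_nonneg (d0 j) (pos m j).le) (Finset.mem_range.2 h)
        linarith
      · have := (div_le_one (pos m j)).2 (hA j h)
        linarith
    have h2 : ∀ x : K co v, ∃ w, co w = fun j => d j * x.1 j := fun x => by
      obtain ⟨m, z, rfl⟩ := surj x
      obtain ⟨C, hC⟩ := h1 m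
      exact (hC z).imp fun _ h => h.1
    choose D hD using h2
    let D' : K co v →ₗ[𝕜] F :=
      { toFun := D
        map_add' := fun x y => inj (by rw [map_add, hD, hD, hD]; ext j; simp [mul_add])
        map_smul' := fun c x => inj (by rw [map_smul, hD, hD]; ext j; simp [mul_left_comm]) }
    refine ⟨⟨D', contK D' fun m => (h1 m).imp fun C hC z => ?_⟩, fun x j => congrFun (hD x) j⟩
    obtain ⟨w, a1, a2⟩ := hC z
    exact (congrArg norm (inj (a1.trans (hD _).symm))).symm.trans_le a2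
  obtain ⟨m0, q, hq⟩ : ∃ m q, ∀ n, ∃ s ≤ q, v m (n + s) ≤ 1 := by
    by_contra hc
    push Not at hc
    choose a ha using fun L => hc L L
    classical
    obtain ⟨D, hD⟩ := diag (fun j => if ∃ L, ∃ s ≤ L, j = a L + s then 1 else 0)
      (fun j => by split_ifs <;> simp) fun m => ⟨∑ L ∈ Finset.range m, (a L + L) + 1, fun j hj => by
        split_ifs with h
        · obtain ⟨L, s, hs, rfl⟩ := h
          refine (ha L s hs).le.trans (anti _ ?_)
          by_contra hL
          have := Finset.single_le_sum (f := fun L => a L + L) (fun _ _ => Nat.zero_le _)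
            (Finset.mem_range.2 (not_le.1 hL))
          omega
        · exact (pos _ _).le⟩
    obtain ⟨D', hD'⟩ := diag (Pi.single 0 1) (fun j => by rw [Pi.single_apply]; split_ifs <;> simp)
      fun m => ⟨1, fun j hj => by rw [Pi.single_eq_of_ne (by omega)]; exact (pos _ _).le⟩
    have c0 : Continuous fun z : F => co z 0 := AddMonoidHomClass.continuous_of_bound
      (LinearMap.proj 0 ∘ₗ co) 1 fun z => by simpa using le_norm z 0
    obtain ⟨q, hq⟩ := erg {x | ‖D x‖ < 1} {x | 1 < ‖co (D' x) 0‖}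
      (isOpen_lt D.continuous.norm continuous_const)
      (isOpen_lt continuous_const (c0.comp D'.continuous).norm) ⟨0, by simp⟩
      ⟨incL co v 0 ((2 * v 0 0 : 𝕜) • e 0), by simp [hD', inc_apply, he, ne]⟩
    obtain ⟨k, h1, h2, x, h3, h4⟩ := hq (a (q + 1) + 1) (by omega)
    have h5 := (le_norm (D x) k).trans_lt h3
    rw [hD, if_pos ⟨q + 1, k - a (q + 1), by omega, by omega⟩] at h5
    simp only [mem_ofPred_eq, hD', Bp] at h4
    simp at h4 h5
    linarith
  obtain ⟨m, C, C0, hC⟩ : ∃ m C, 0 < C ∧ ∀ j, v m j ≤ C := by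
    have : ∀ t, ∃ m C, 0 < C ∧ ∀ j, ∀ s ≤ t, v m j ≤ C * v m0 (j + s) := by
      intro t
      induction t with
      | zero => exact ⟨m0, 1, one_pos, fun j s hs => by simp [Nat.le_zero.1 hs]⟩
      | succ t ih =>
        obtain ⟨m, C, C0, hC⟩ := ih
        obtain ⟨n, hn, C', C0', hC'⟩ := hv m
        refine ⟨n, C + C' * C, by positivity, fun j s hs => ?_⟩
        have := pos m0 (j + s)
        rcases s with _ | s
        · have := (anti j hn).trans (hC j 0 (Nat.zero_le _))
          nlinarith [mul_pos (mul_pos C0' C0) (pos m0 (j + 0))]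
        · have h1 := mul_le_mul_of_nonneg_left (hC (j + 1) s (by omega)) C0'.le
          rw [show j + 1 + s = j + (s + 1) by ring] at h1
          nlinarith [hC' j, mul_pos C0 this]
    obtain ⟨m, C, C0, hC⟩ := this q
    refine ⟨m, C, C0, fun j => ?_⟩
    obtain ⟨s, h1, h2⟩ := hq j
    exact (hC j s h1).trans (by nlinarith)
  have cj : ∀ j, ∃ g : F →L[𝕜] 𝕜, ∀ z, g z = co z j := fun j =>
    ⟨(LinearMap.proj j ∘ₗ co).mkContinuous 1 fun z => by simpa using le_norm z j, fun _ => rfl⟩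
  choose g hg using cj
  obtain ⟨n, hn⟩ : ∃ n, Tendsto (v n) atTop (𝓝 0) := by
    by_contra hc
    have hF : ∀ n, ∃ s : Finset ℕ, (∀ j ∈ s, n ≤ j) ∧ (n : ℝ) ≤ ∑ j ∈ s, v n j := by
      intro n
      by_contra h
      push Not at h
      refine hc ⟨n, ((summable_nat_add_iff n).1 (summable_of_sum_le (c := n)
        (fun j => (pos _ _).le) fun s => ?_)).tendsto_atTop_zero⟩
      rw [← Finset.sum_image (f := v n) (g := fun j => j + n) (fun a _ b _ h => by simpa using h)]
      exact (h _ (by simp)).le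
    choose s hs1 hs2 using hF
    classical
    let d : ℕ → ℝ := fun j => if h : ∃ n, j ∈ s n then v (Nat.find h) j else 0
    obtain ⟨D, hD⟩ := diag d (fun j => by simp only [d]; split_ifs; exacts [(pos _ _).le, le_rfl])
      fun k => ⟨((Finset.range k).biUnion s).sup id + 1, fun j hj => by
        simp only [d]
        split_ifs with h
        · refine anti _ ?_
          by_contra hk
          have := Finset.le_sup (f := id) (Finset.mem_biUnion.2
            ⟨_, Finset.mem_range.2 (not_le.1 hk), Nat.find_spec h⟩)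
          simp only [id] at this
          omega
        · exact (pos _ _).le⟩
    obtain ⟨f, y, hy, ⟨U, hU, hf⟩, hsum⟩ := nuc F D
    have := (cont_inc (co := co) (v := v) m).continuousAt (x := 0)
    obtain ⟨δ, δ0, hδ⟩ := Metric.nhds_basis_closedBall.mem_iff.1 (this (by simpa using hU))
    have hb : ∀ i z, ‖f i (incL co v m z)‖ ≤ 1 / δ * ‖z‖ := fun i =>
      ((f i).toLinearMap ∘ₗ incL co v m).bound_of_ball_bound' δ0 1 fun z hz => hf i _ (hδ hz)
    obtain ⟨n, hn⟩ := exists_nat_gt (C * (1 / δ * ∑' i, ‖y i‖))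
    have h1 : HasSum (fun i => ∑ j ∈ s n, g j (f i (incL co v m (e j)) • y i))
        (∑ j ∈ s n, g j (D (incL co v m (e j)))) := hasSum_sum fun j _ => (g j).hasSum (hsum _)
    have h2 := h1.norm_le_of_bounded (hy.hasSum.mul_left (1 / δ)) fun i => by
      obtain ⟨z, a1, a2⟩ := dom (y i) (fun j => if j ∈ s n then co (y i) j else 0) 1 zero_le_one
        fun j => by split_ifs <;> simp
      have : z = ∑ j ∈ s n, co (y i) j • e j := inj (by
        rw [a1]; ext j; simp [he, Finset.sum_apply, Pi.single_apply])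
      refine le_trans (le_of_eq ?_) ((hb i z).trans (mul_le_mul_of_nonneg_left (by simpa using a2)
        (by positivity)))
      simp [this, hg, mul_comm]
    have h3 : ∑ j ∈ s n, g j (D (incL co v m (e j))) = ((∑ j ∈ s n, d j / v m j : ℝ) : 𝕜) := by
      push_cast
      exact Finset.sum_congr rfl fun j _ => by simp [hg, hD, inc_apply, he, div_eq_mul_inv]
    rw [h3, RCLike.norm_ofReal] at h2
    have h4 : (n : ℝ) ≤ C * ∑ j ∈ s n, d j / v m j := by
      rw [Finset.mul_sum]
      refine (hs2 n).trans (Finset.sum_le_sum fun j hj => ?_)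
      have a1 : v n j ≤ d j := by
        simp only [d, dif_pos (⟨n, hj⟩ : ∃ n, j ∈ s n)]
        exact anti _ (Nat.find_min' _ hj)
      rw [mul_div_assoc', le_div_iff₀ (pos m j), mul_comm C]
      exact mul_le_mul a1 (hC j) (pos _ _).le ((pos _ _).le.trans a1)
    nlinarith [le_abs_self (∑ j ∈ s n, d j / v m j)]
  have sep : TopologicalSpace.IsSeparable {x | ∃ N, ∀ n, N ≤ n → co x n = 0} := by
    refine ((Set.countable_range e).isSeparable.span (R := 𝕜)).mono ?_
    rintro x ⟨N, hN⟩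
    have : x = ∑ i ∈ Finset.range N, co x i • e (i + 0) := inj (by
      ext n
      rw [fin]
      split_ifs with h
      · rfl
      · exact hN n (by omega))
    rw [this]
    exact Submodule.sum_mem _ fun i _ => Submodule.smul_mem _ _ (Submodule.subset_span ⟨i, rfl⟩)
  obtain ⟨S, hS1, hS2, hS3⟩ := sep.exists_countable_dense_subset
  obtain ⟨d, rfl⟩ := hS2.exists_eq_range (by
    by_contra h
    rw [not_nonempty_iff_eq_empty] at h
    simpa [h] using hS3 (a := 0) ⟨0, by simp⟩)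
  have hd : Dense (range d) := by
    rw [← dense_closure]; exact dense.mono hS3
  choose N hN using fun l => hS1 ⟨(Nat.unpair l).1, rfl⟩
  let a : ℕ → ℕ → 𝕜 := fun l j => co (d (Nat.unpair l).1) j / v n j
  let G : ℕ → ℕ → F := fun l s => ∑ i ∈ Finset.range (N l), (a l i * v n (i + s)) • e (i + s)
  have hG : ∀ l s j, co (G l s) j / v n j = if s ≤ j then a l (j - s) else 0 := by
    intro l s j
    rw [fin]
    by_cases h : s ≤ j
    · by_cases h' : j - s < N l
      · rw [if_pos ⟨h, h'⟩, if_pos h, Nat.sub_add_cancel h, mul_div_cancel_right₀ _ (ne n j)]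
      · simp [h, h', a, hN l _ (not_lt.1 h')]
    · simp [h]
  have hs : ∀ l, ∃ s0, ∀ s ≥ s0, ‖G l s‖ ≤ (1 / 2) ^ l := by
    intro l
    have : Tendsto (fun s => ∑ i ∈ Finset.range (N l), ‖a l i‖ * v n (i + s)) atTop (𝓝 0) := by
      simpa using tendsto_finsetSum (Finset.range (N l)) fun i _ =>
        (hn.comp (tendsto_atTop_mono (fun s => Nat.le_add_left s i) tendsto_id)).const_mul ‖a l i‖
    refine eventually_atTop.1 ((this.eventually (gt_mem_nhds (by positivity :
      (0 : ℝ) < (1 / 2) ^ l))).mono fun s h => le_trans ?_ h.le)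
    refine (norm_sum_le _ _).trans (Finset.sum_le_sum fun i _ => ?_)
    rw [norm_smul, norm_mul, nv]
    exact mul_le_of_le_one_right (mul_nonneg (norm_nonneg _) (pos _ _).le) (he1 _)
  choose s0 hs0 using hs
  let t : ℕ → ℕ := fun l => s0 l + ∑ i ∈ Finset.range l, (s0 i + N i)
  have ht : ∀ k l, k < l → t k + N k + s0 l ≤ t l := by
    intro k l h
    have := Finset.sum_le_sum_of_subset (f := fun i => s0 i + N i)
      (Finset.range_mono (Nat.succ_le_of_lt h))
    rw [Finset.sum_range_succ] at this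
    simp only [t]
    omega
  have sm : ∀ (k : ℕ) (s : ℕ → ℕ), (∀ l, s0 (l + k) ≤ s l) → ∃ r : F,
      HasSum (fun l => G (l + k) (s l)) r ∧ ‖r‖ ≤ 2 * (1 / 2) ^ k := by
    intro k s h
    have h1 : HasSum (fun l => (1 / 2 : ℝ) ^ (l + k)) (2 * (1 / 2) ^ k) := by
      simpa only [pow_add] using hasSum_geometric_two.mul_right ((1 / 2) ^ k)
    have h2 := (Summable.of_norm_bounded h1.summable fun l => hs0 _ _ (h l)).hasSum
    exact ⟨_, h2, h2.norm_le_of_bounded h1 fun l => hs0 _ _ (h l)⟩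
  obtain ⟨x, hx, -⟩ := sm 0 t fun l => Nat.le_add_right _ _
  have orb : ∀ k, ∃ r, B^[t k] (incL co v n x) = incL co v n (d (Nat.unpair k).1 + r) ∧
      ‖r‖ ≤ 2 * (1 / 2) ^ (k + 1) := by
    intro k
    obtain ⟨r, h1, h2⟩ := sm (k + 1) (fun l => t (l + (k + 1)) - t k) fun l => by
      have := ht k (l + (k + 1)) (by omega); omega
    refine ⟨r, Subtype.ext (funext fun j => ?_), h2⟩
    have a1 := ((g (j + t k)).hasSum hx).div_const (v n (j + t k) : 𝕜)
    have a2 := ((g j).hasSum h1).div_const (v n j : 𝕜)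
    simp only [hg, hG, add_zero] at a1 a2
    rw [← hasSum_nat_add_iff' (k + 1), Finset.sum_range_succ, Finset.sum_eq_zero fun l hl => by
      have := ht l k (Finset.mem_range.1 hl)
      rw [if_pos (by omega)]
      simp [a, hN l (j + t k - t l) (by omega)], if_pos (by omega), zero_add, Nat.add_sub_cancel] at a1
    have a3 := a1.unique (cast (congrArg (HasSum · _) (funext fun l => by
      have := ht k (l + (k + 1)) (by omega)
      by_cases h : t (l + (k + 1)) ≤ j + t k
      · rw [if_pos h, if_pos (by omega)]; congr 1; omega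
      · rw [if_neg h, if_neg (by omega)])) a2)
    rw [Bp, inc_apply, inc_apply, map_add, Pi.add_apply, add_div, ← a3]
    simp [a]
  refine ⟨incL co v n x, fun z => ?_⟩
  obtain ⟨m', w', rfl⟩ := surj z
  obtain ⟨w, hw, -⟩ := trans (le_max_left m' n) w'
  rw [← hw]
  have key : ∀ i : ℕ, ∃ k w1, B^[k] (incL co v n x) = incL co v (max m' n) w1 ∧
      ‖w1 - w‖ ≤ 3 * (1 / 2) ^ i := by
    intro i
    have ε0 : (0 : ℝ) < (1 / 2) ^ i := by positivity
    obtain ⟨w0, ⟨M, hM⟩, h0⟩ := dense.exists_dist_lt w ε0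
    let w1 := ∑ j ∈ Finset.range M, (co w0 j / v (max m' n) j * v n j) • e (j + 0)
    have h1 : incL co v n w1 = incL co v (max m' n) w0 := Subtype.ext (funext fun j => by
      rw [inc_apply, inc_apply, fin]
      split_ifs with h
      · simp [ne]
      · simp [hM j (by omega)])
    obtain ⟨_, ⟨l, rfl⟩, h2⟩ := hd.exists_dist_lt w1 ε0
    obtain ⟨r, h3, h4⟩ := orb (Nat.pair l i)
    obtain ⟨u, h5, h6⟩ := trans (le_max_right m' n) (d l + r - w1)
    refine ⟨_, u + w0, by rw [h3, map_add _ u, h5, ← h1, ← map_add]; simp, ?_⟩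
    have h7 : (1 / 2 : ℝ) ^ Nat.pair l i ≤ (1 / 2) ^ i :=
      pow_le_pow_of_le_one (by norm_num) (by norm_num) (Nat.right_le_pair l i)
    rw [dist_comm, dist_eq_norm] at h0 h2
    rw [add_sub_assoc]
    rw [add_sub_right_comm] at h6
    have := norm_add_le u (w0 - w)
    have := norm_add_le (d l - w1) r
    rw [pow_succ] at h4
    linarith
  choose k w1 h1 h2 using key
  refine ⟨k, ?_⟩
  simp only [h1]
  refine ((cont_inc _).tendsto w).comp (tendsto_iff_norm_sub_tendsto_zero.2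
    (squeeze_zero (fun _ => norm_nonneg _) h2 ?_))
  simpa using (tendsto_pow_atTop_nhds_zero_of_lt_one (r := (1 / 2 : ℝ)) (by norm_num)
    (by norm_num)).const_mul 3

theorem result (𝕜 : Type) [RCLike 𝕜] :
    (∀ (p : ℝ≥0∞) [Fact (1 ≤ p)], p ≠ ∞ → Main fun (x : lp (fun _ : ℕ => 𝕜) p) n => x n) ∧
      Main fun (x : C₀(ℕ, 𝕜)) n => x n := by
  constructor
  · intro p hp hp'
    have hp0 : p ≠ 0 := (zero_lt_one.trans_le hp.out).ne'
    have hp1 : 0 < p.toReal := ENNReal.toReal_pos hp0 hp'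
    refine general (co := coL 𝕜 p) (fun x y h => lp.ext h) (fun x n => lp.norm_apply_le_norm hp0 x n)
      (fun x y C hC h => ?_) (fun x => ?_) fun i => ⟨lp.single p i 1, rfl, by
        rw [lp.norm_single (pos_iff_ne_zero.2 hp0), norm_one]⟩
    · have h1 := lp.hasSum_norm hp1 x
      have h2 : ∀ s : Finset ℕ, ∑ i ∈ s, ‖y i‖ ^ p.toReal ≤ (C * ‖x‖) ^ p.toReal := by
        intro s
        rw [Real.mul_rpow hC (norm_nonneg _)]
        calc _ ≤ ∑ i ∈ s, C ^ p.toReal * ‖x i‖ ^ p.toReal := Finset.sum_le_sum fun i _ => by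
              rw [← Real.mul_rpow hC (norm_nonneg _)]
              exact Real.rpow_le_rpow (norm_nonneg _) (h i) hp1.le
          _ ≤ _ := by
              rw [← Finset.mul_sum]
              exact mul_le_mul_of_nonneg_left (sum_le_hasSum _ (fun _ _ => by positivity) h1)
                (by positivity)
      exact ⟨⟨y, memℓp_gen' h2⟩, rfl, lp.norm_le_of_forall_sum_le hp1 (by positivity) h2⟩
    · refine mem_closure_of_tendsto (lp.hasSum_single hp' x).tendsto_sum_nat
        (Eventually.of_forall fun N => ⟨N, fun n hn => ?_⟩)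
      show (∑ i ∈ Finset.range N, lp.single p i (x i) : lp (fun _ : ℕ => 𝕜) p) n = 0
      rw [lp.coeFn_sum, Finset.sum_apply]
      refine Finset.sum_eq_zero fun i hi => lp.single_apply_ne _ _ _ ?_
      have := Finset.mem_range.1 hi
      omega
  · have le_norm : ∀ (f : C₀(ℕ, 𝕜)) n, ‖f n‖ ≤ ‖f‖ := fun f n => f.toBCF.norm_coe_le_norm n
    have norm_le : ∀ (f : C₀(ℕ, 𝕜)) (C : ℝ), 0 ≤ C → (∀ n, ‖f n‖ ≤ C) → ‖f‖ ≤ C := fun f C hC h =>
      (BoundedContinuousFunction.norm_le (f := f.toBCF) hC).2 h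
    have mk : ∀ y : ℕ → 𝕜, Tendsto y atTop (𝓝 0) → ∃ z : C₀(ℕ, 𝕜), ∀ n, z n = y n := fun y h =>
      ⟨⟨⟨y, continuous_of_discreteTopology⟩, by rwa [cocompact_eq_cofinite, Nat.cofinite_eq_atTop]⟩,
        fun _ => rfl⟩
    have td : ∀ f : C₀(ℕ, 𝕜), Tendsto f atTop (𝓝 0) := fun f => by
      have := f.zero_at_infty'
      rwa [cocompact_eq_cofinite, Nat.cofinite_eq_atTop] at this
    refine general (co := coC 𝕜) (fun x y h => ZeroAtInftyContinuousMap.ext (congrFun h)) le_norm
      (fun x y C hC h => ?_) (Metric.dense_iff.2 fun x ε hε => ?_) (fun i => ?_)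
    · obtain ⟨z, hz⟩ := mk y (squeeze_zero_norm (a := fun n => C * ‖x n‖) h
        (by simpa using (td x).norm.const_mul C))
      exact ⟨z, funext hz, norm_le _ _ (by positivity) fun n => (hz n ▸ h n).trans
        (mul_le_mul_of_nonneg_left (le_norm x _) hC)⟩
    · obtain ⟨N, hN⟩ := eventually_atTop.1 (NormedAddGroup.tendsto_nhds_zero.1 (td x) _ (half_pos hε))
      obtain ⟨z, hz⟩ := mk (fun n => if n < N then x n else 0) (tendsto_const_nhds.congr'
        ((eventually_ge_atTop N).mono fun n hn => by simp [not_lt.2 hn]))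
      refine ⟨z, ?_, N, fun n hn => (hz n).trans (if_neg (not_lt.2 hn))⟩
      rw [Metric.mem_ball, dist_eq_norm]
      refine (norm_le _ (ε / 2) (by positivity) fun n => ?_).trans_lt (half_lt_self hε)
      rw [ZeroAtInftyContinuousMap.sub_apply, hz]
      split_ifs with h
      · simp [half_pos hε |>.le]
      · simpa using (hN n (not_lt.1 h)).le
    · obtain ⟨z, hz⟩ := mk (Pi.single i 1) (tendsto_const_nhds.congr'
        ((eventually_gt_atTop i).mono fun n hn => by simp [hn.ne']))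
      exact ⟨z, funext hz, norm_le _ _ zero_le_one fun n => by
        rw [hz, Pi.single_apply]; split_ifs <;> simp⟩

end Pool.Agent.Results.MP_b30f08_an.NuclearErgodic
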